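import Pool.Agent.H68.L.R_seed8.H398R2.BA3

open Finset

/-!
Elliott-Halberstam with exceptional residue classes: definitions.
-/

namespace H343E

open Pool.Agent.H410R2 Pool.Agent.H398R2.BV

/-- nonprincipal characters mod `q` of conductor `≤ F` -/
noncomputable def smallC (q F : ℕ) [NeZero q] : Finset (DirichletCharacter ℂ q) :=
  letI := Classical.decEq (DirichletCharacter ℂ q)
  univ.filter (fun χ => χ ≠ 1 ∧ χ.conductor ≤ F)

/-- nonprincipal characters mod `q` of conductor `> F` -/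
noncomputable def largeC (q F : ℕ) [NeZero q] : Finset (DirichletCharacter ℂ q) :=
  letI := Classical.decEq (DirichletCharacter ℂ q)
  univ.filter (fun χ => χ ≠ 1 ∧ F < χ.conductor)

/-- contribution of the small conductors -/
noncomputable def SS (X : ℝ) (q F : ℕ) [NeZero q] : ℝ :=
  (1 / (Nat.totient q : ℝ)) *
    ∑ χ ∈ smallC q F, ‖TL X q χ (fun n => ArithmeticFunction.vonMangoldt n)‖

/-- contribution of the large conductors to the class `a` -/
noncomputable def VV (X : ℝ) (q F a : ℕ) [NeZero q] : ℂ :=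
  (1 / (Nat.totient q : ℂ)) *
    ∑ χ ∈ largeC q F, χ ((a : ZMod q)⁻¹) * TL X q χ (fun n => ArithmeticFunction.vonMangoldt n)

/-- `∑_{f ∈ (F, D]} 1/φ(f) ∑_{ψ primitive mod f} |psiLog X f ψ|²` -/
noncomputable def MM (X : ℝ) (F D : ℕ) : ℝ :=
  ∑ f ∈ Ioc F D, (1 / (Nat.totient f : ℝ)) * ∑ ψ ∈ Prim f, ‖psiLog X f ψ‖ ^ 2

/-- `∑_{e ≤ D} 1/φ(e)` -/
noncomputable def HH (D : ℕ) : ℝ := ∑ e ∈ Icc 1 D, 1 / (Nat.totient e : ℝ)

/-- families of reduced residue classes, at most `A` for each modulus -/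
structure Fam (A : ℝ) (L : ℕ → Finset ℕ) : Prop where
  cop : ∀ q, ∀ a ∈ L q, a < q ∧ a.Coprime q
  card : ∀ q, ((L q).card : ℝ) ≤ A

/-- `ψ(x; q, a)` -/
noncomputable def psiAP (x : ℝ) (q a : ℕ) : ℝ :=
  ∑ n ∈ (Icc 1 ⌊x⌋₊).filter (fun n => n ≡ a [MOD q]), ArithmeticFunction.vonMangoldt n

/-- `ψ(x)` -/
noncomputable def psi1 (x : ℝ) : ℝ := ∑ n ∈ Icc 1 ⌊x⌋₊, ArithmeticFunction.vonMangoldt n

/-- `π(x; q, a)` -/
noncomputable def piAP (x q a : ℕ) : ℝ :=
  (((Icc 1 x).filter (fun p => p.Prime ∧ p ≡ a [MOD q])).card : ℝ)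

/-- `π(x)` -/
noncomputable def pi1 (x : ℕ) : ℝ := (((Icc 1 x).filter (fun p => p.Prime)).card : ℝ)

end H343E
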