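import Pool.Agent.H68.L.R_seed8.H343R2.EH.Defs

open Finset

/-! From `ψ(x; q, a)` to `π(x; q, a)` by partial summation. -/

namespace H343E

open Pool.Agent.H410R2 Pool.Agent.H398R2.BV

noncomputable def wA (n : ℕ) : ℝ := 1 / Real.log n - 1 / Real.log ((n + 1 : ℕ) : ℝ)

lemma wA_nonneg {n : ℕ} (hn : 2 ≤ n) : 0 ≤ wA n := by
  have h2 : (2 : ℝ) ≤ n := by exact_mod_cast hn
  have h0 : 0 < Real.log n := Real.log_pos (by linarith)
  unfold wA
  rw [sub_nonneg]
  apply one_div_le_one_div_of_le h0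
  exact Real.log_le_log (by linarith) (by push_cast; linarith)

lemma sum_wA (x : ℕ) (hx : 2 ≤ x) :
    ∑ n ∈ Ico 2 x, wA n = 1 / Real.log 2 - 1 / Real.log x := by
  induction x, hx using Nat.le_induction with
  | base => simp
  | succ x hx ih =>
    rw [sum_Ico_succ_top (by omega), ih, wA]
    push_cast
    ring

lemma abelSum (c : ℕ → ℝ) (hc : c 1 = 0) (x : ℕ) (hx : 2 ≤ x) :
    ∑ n ∈ Icc 2 x, c n / Real.log n =
      (∑ n ∈ Icc 1 x, c n) / Real.log x + ∑ n ∈ Ico 2 x, wA n * ∑ m ∈ Icc 1 n, c m := by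
  induction x, hx using Nat.le_induction with
  | base =>
    rw [Icc_self, sum_singleton, Ico_self, sum_empty, add_zero]
    have : Icc 1 2 = {1, 2} := by decide
    rw [this, sum_pair (by norm_num), hc, zero_add]
  | succ x hx ih =>
    rw [sum_Icc_succ_top (by omega), ih, sum_Ico_succ_top (by omega), sum_Icc_succ_top (by omega),
      wA]
    ring

/-- the error of `ψ` at the integer `n` -/
noncomputable def Eψ (n q a : ℕ) : ℝ := psiAP n q a - psi1 n / (Nat.totient q : ℝ)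

noncomputable def cf (q a n : ℕ) : ℝ :=
  ArithmeticFunction.vonMangoldt n * ((if n ≡ a [MOD q] then 1 else 0) - 1 / (Nat.totient q : ℝ))

lemma Eψ_eq (n q a : ℕ) : Eψ n q a = ∑ m ∈ Icc 1 n, cf q a m := by
  unfold Eψ psiAP psi1 cf
  rw [Nat.floor_natCast, sum_filter, sum_div, ← sum_sub_distrib]
  apply sum_congr rfl
  intro m _
  split_ifs <;> ring

/-- the part of the proper prime powers -/
noncomputable def NPa (x q a : ℕ) : ℝ :=
  ∑ m ∈ (Icc 2 x).filter (fun m => ¬ m.Prime ∧ m ≡ a [MOD q]),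
    ArithmeticFunction.vonMangoldt m / Real.log m

noncomputable def NP (x : ℕ) : ℝ :=
  ∑ m ∈ (Icc 2 x).filter (fun m => ¬ m.Prime), ArithmeticFunction.vonMangoldt m / Real.log m

lemma NPa_nonneg (x q a : ℕ) : 0 ≤ NPa x q a :=
  sum_nonneg fun m _ => div_nonneg ArithmeticFunction.vonMangoldt_nonneg (Real.log_natCast_nonneg m)

lemma NP_nonneg (x : ℕ) : 0 ≤ NP x :=
  sum_nonneg fun m _ => div_nonneg ArithmeticFunction.vonMangoldt_nonneg (Real.log_natCast_nonneg m)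

lemma NP_le (x : ℕ) (hx : 1 ≤ x) : NP x ≤ 3 * (√(x : ℝ) * Real.log x) := by
  have hx1 : (1 : ℝ) ≤ x := by exact_mod_cast hx
  have h1 := Chebyshev.psi_sub_theta_le hx1
  rw [Chebyshev.psi_sub_theta_eq_sum_not_prime, Nat.floor_natCast] at h1
  have hl2 : 0 < Real.log 2 := Real.log_pos (by norm_num)
  have h2 : NP x ≤ (∑ n ∈ (Ioc 0 x).filter (fun n => ¬ n.Prime),
      ArithmeticFunction.vonMangoldt n) / Real.log 2 := by
    unfold NP
    rw [sum_div]
    have hsub : (Icc 2 x).filter (fun m => ¬ m.Prime) ⊆ (Ioc 0 x).filter (fun n => ¬ n.Prime) := by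
      intro m hm
      rw [mem_filter, mem_Icc] at hm
      rw [mem_filter, mem_Ioc]
      exact ⟨⟨by omega, hm.1.2⟩, hm.2⟩
    refine le_trans (sum_le_sum fun m hm => ?_) (sum_le_sum_of_subset_of_nonneg hsub fun m _ _ =>
      div_nonneg ArithmeticFunction.vonMangoldt_nonneg hl2.le)
    rw [mem_filter, mem_Icc] at hm
    have hm2 : (2 : ℝ) ≤ m := by exact_mod_cast hm.1.1
    exact div_le_div_of_nonneg_left ArithmeticFunction.vonMangoldt_nonneg hl2
      (Real.log_le_log (by norm_num) hm2)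
  have h3 : (∑ n ∈ (Ioc 0 x).filter (fun n => ¬ n.Prime),
      ArithmeticFunction.vonMangoldt n) / Real.log 2 ≤ 2 * √(x : ℝ) * Real.log x / Real.log 2 :=
    div_le_div_of_nonneg_right h1 hl2.le
  have h4 : 2 * √(x : ℝ) * Real.log x / Real.log 2 ≤ 3 * (√(x : ℝ) * Real.log x) := by
    rw [div_le_iff₀ hl2]
    have h5 : 2 ≤ 3 * Real.log 2 := by linarith [Real.log_two_gt_d9]
    have h6 : 0 ≤ √(x : ℝ) * Real.log x := mul_nonneg (Real.sqrt_nonneg _) (Real.log_nonneg hx1)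
    linarith [mul_le_mul_of_nonneg_right h5 h6]
  linarith

lemma piAP_split (x q a : ℕ) : ∑ m ∈ Icc 2 x, ArithmeticFunction.vonMangoldt m *
    (if m ≡ a [MOD q] then 1 else 0) / Real.log m = piAP x q a + NPa x q a := by
  have h1 : piAP x q a = ∑ m ∈ (Icc 2 x).filter (fun m => m.Prime ∧ m ≡ a [MOD q]),
      ArithmeticFunction.vonMangoldt m / Real.log m := by
    unfold piAP
    have hs : (Icc 1 x).filter (fun p => p.Prime ∧ p ≡ a [MOD q]) =
        (Icc 2 x).filter (fun p => p.Prime ∧ p ≡ a [MOD q]) := by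
      ext m
      simp only [mem_filter, mem_Icc]
      constructor
      · rintro ⟨⟨h1, h2⟩, h3, h4⟩
        exact ⟨⟨h3.two_le, h2⟩, h3, h4⟩
      · rintro ⟨⟨h1, h2⟩, h3, h4⟩
        exact ⟨⟨by omega, h2⟩, h3, h4⟩
    rw [hs, card_eq_sum_ones]
    push_cast
    apply sum_congr rfl
    intro m hm
    rw [mem_filter] at hm
    rw [ArithmeticFunction.vonMangoldt_apply_prime hm.2.1]
    have : (1 : ℝ) < m := by exact_mod_cast hm.2.1.one_lt
    exact (div_self (Real.log_pos this).ne').symm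
  rw [h1, NPa]
  simp only [sum_filter]
  rw [← sum_add_distrib]
  apply sum_congr rfl
  intro m _
  by_cases h2 : m.Prime <;> by_cases h3 : m ≡ a [MOD q] <;> simp [h2, h3]

lemma pi1_split (x : ℕ) : ∑ m ∈ Icc 2 x, ArithmeticFunction.vonMangoldt m / Real.log m =
    pi1 x + NP x := by
  have h1 : pi1 x = ∑ m ∈ (Icc 2 x).filter (fun m => m.Prime),
      ArithmeticFunction.vonMangoldt m / Real.log m := by
    unfold pi1
    have hs : (Icc 1 x).filter (fun p => p.Prime) = (Icc 2 x).filter (fun p => p.Prime) := by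
      ext m
      simp only [mem_filter, mem_Icc]
      constructor
      · rintro ⟨⟨h1, h2⟩, h3⟩
        exact ⟨⟨h3.two_le, h2⟩, h3⟩
      · rintro ⟨⟨h1, h2⟩, h3⟩
        exact ⟨⟨by omega, h2⟩, h3⟩
    rw [hs, card_eq_sum_ones]
    push_cast
    apply sum_congr rfl
    intro m hm
    rw [mem_filter] at hm
    rw [ArithmeticFunction.vonMangoldt_apply_prime hm.2]
    have : (1 : ℝ) < m := by exact_mod_cast hm.2.one_lt
    exact (div_self (Real.log_pos this).ne').symm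
  rw [h1, NP]
  simp only [sum_filter]
  rw [← sum_add_distrib]
  apply sum_congr rfl
  intro m _
  by_cases h2 : m.Prime <;> simp [h2]

lemma pi_err (x q a : ℕ) (hx : 2 ≤ x) : |piAP x q a - pi1 x / (Nat.totient q : ℝ)| ≤
    |Eψ x q a| / Real.log x + ∑ n ∈ Ico 2 x, wA n * |Eψ n q a| +
      (NPa x q a + NP x / (Nat.totient q : ℝ)) := by
  have h1 := abelSum (cf q a) (by simp [cf]) x hx
  have h2 : ∑ n ∈ Icc 2 x, cf q a n / Real.log n =
      (piAP x q a + NPa x q a) - (pi1 x + NP x) / (Nat.totient q : ℝ) := by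
    rw [← piAP_split, ← pi1_split, sum_div, ← sum_sub_distrib]
    apply sum_congr rfl
    intro m _
    unfold cf
    ring
  rw [h2] at h1
  have h3 : piAP x q a - pi1 x / (Nat.totient q : ℝ) =
      Eψ x q a / Real.log x + ∑ n ∈ Ico 2 x, wA n * Eψ n q a +
      (NP x / (Nat.totient q : ℝ) - NPa x q a) := by
    simp only [Eψ_eq]
    rw [← h1]; ring
  rw [h3]
  have hl : 0 < Real.log x := Real.log_pos (by
    have : (2 : ℝ) ≤ x := by exact_mod_cast hx
    linarith)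
  refine (abs_add_le _ _).trans (add_le_add ((abs_add_le _ _).trans (add_le_add ?_ ?_)) ?_)
  · rw [abs_div, abs_of_pos hl]
  · refine (abs_sum_le_sum_abs _ _).trans (sum_le_sum fun n hn => ?_)
    rw [mem_Ico] at hn
    rw [abs_mul, abs_of_nonneg (wA_nonneg hn.1)]
  · have h4 := NPa_nonneg x q a
    have h5 : 0 ≤ NP x / (Nat.totient q : ℝ) := div_nonneg (NP_nonneg x) (Nat.cast_nonneg _)
    rw [abs_le]
    constructor <;> linarith

lemma card_L_le {A : ℝ} {L : ℕ → Finset ℕ} (hL : Fam A L) (q : ℕ) : (L q).card ≤ Nat.totient q := by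
  rw [Nat.totient_eq_card_coprime]
  apply card_le_card
  intro a ha
  rw [mem_filter, mem_range]
  exact ⟨(hL.cop q a ha).1, (hL.cop q a ha).2.symm⟩

lemma sum_NPa {A : ℝ} {L : ℕ → Finset ℕ} (hL : Fam A L) (x q : ℕ) :
    ∑ a ∈ L q, NPa x q a ≤ NP x := by
  unfold NPa NP
  have h1 : ∀ a, ∑ m ∈ (Icc 2 x).filter (fun m => ¬ m.Prime ∧ m ≡ a [MOD q]),
      ArithmeticFunction.vonMangoldt m / Real.log m =
      ∑ m ∈ (Icc 2 x).filter (fun m => ¬ m.Prime), (if m ≡ a [MOD q] then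
        ArithmeticFunction.vonMangoldt m / Real.log m else 0) := by
    intro a
    rw [← filter_filter, sum_filter (fun m => m ≡ a [MOD q])]
  simp only [h1]
  rw [sum_comm]
  apply sum_le_sum
  intro m _
  have h2 : 0 ≤ ArithmeticFunction.vonMangoldt m / Real.log m :=
    div_nonneg ArithmeticFunction.vonMangoldt_nonneg (Real.log_natCast_nonneg m)
  by_cases h3 : m % q ∈ L q
  · rw [sum_eq_single (m % q)]
    · split_ifs <;> linarith
    · intro b hb hne
      have hbq := (hL.cop q b hb).1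
      rw [if_neg]
      intro h4
      apply hne
      have : m % q = b % q := h4
      rw [this, Nat.mod_eq_of_lt hbq]
    · intro h; exact absurd h3 h
  · rw [sum_eq_zero]
    · exact h2
    · intro b hb
      have hbq := (hL.cop q b hb).1
      rw [if_neg]
      intro h4
      apply h3
      have : m % q = b % q := h4
      rw [this, Nat.mod_eq_of_lt hbq]
      exact hb

lemma card_mod (n q a : ℕ) (hq : 1 ≤ q) :
    (((Icc 1 n).filter (fun m => m ≡ a [MOD q])).card : ℝ) ≤ n / q + 1 := by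
  have h := Nat.Ioc_filter_modEq_card 0 n (by omega : 0 < q) a
  have h0 : Icc 1 n = Ioc 0 n := by ext; simp [Nat.succ_le_iff]
  rw [h0]
  have hq0 : (0 : ℚ) < q := by exact_mod_cast hq
  have h2 := Int.floor_le (((n : ℚ) - a) / q)
  have h3 := Int.lt_floor_add_one ((((0 : ℕ) : ℚ) - a) / q)
  obtain ⟨u, hu⟩ : ∃ u : ℤ, u = ⌊((n : ℚ) - a) / q⌋ := ⟨_, rfl⟩
  obtain ⟨v, hv⟩ : ∃ v : ℤ, v = ⌊(((0 : ℕ) : ℚ) - a) / q⌋ := ⟨_, rfl⟩
  rw [← hu, ← hv] at h
  rw [← hu] at h2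
  rw [← hv] at h3
  have h1 : ((((Ioc 0 n).filter (fun m => m ≡ a [MOD q])).card : ℤ) : ℚ) ≤ (n : ℚ) / q + 1 := by
    rw [h]
    rw [Int.cast_max]
    apply max_le
    · have h4 : ((n : ℚ) - a) / q - (((0 : ℕ) : ℚ) - a) / q = n / q := by
        rw [Nat.cast_zero]; ring
      rw [Int.cast_sub]
      linarith
    · rw [Int.cast_zero]; positivity
  have h5 : ((((Ioc 0 n).filter (fun m => m ≡ a [MOD q])).card : ℕ) : ℚ) ≤ (n : ℚ) / q + 1 := by
    exact_mod_cast h1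
  have h6 := (Rat.cast_le (K := ℝ)).mpr h5
  push_cast at h6
  exact h6

lemma psiAP_le (n q a : ℕ) (hq : 1 ≤ q) : psiAP n q a ≤ (n / q + 1) * Real.log n := by
  unfold psiAP
  rw [Nat.floor_natCast]
  have h1 : ∑ m ∈ (Icc 1 n).filter (fun m => m ≡ a [MOD q]), ArithmeticFunction.vonMangoldt m ≤
      ∑ m ∈ (Icc 1 n).filter (fun m => m ≡ a [MOD q]), Real.log n := by
    apply sum_le_sum
    intro m hm
    rw [mem_filter, mem_Icc] at hm
    refine ArithmeticFunction.vonMangoldt_le_log.trans ?_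
    exact Real.log_le_log (by exact_mod_cast hm.1.1) (by exact_mod_cast hm.1.2)
  refine h1.trans ?_
  rw [sum_const, nsmul_eq_mul]
  exact mul_le_mul_of_nonneg_right (card_mod n q a hq) (Real.log_natCast_nonneg n)

lemma psi1_le (n : ℕ) : psi1 n ≤ n * Real.log n := by
  unfold psi1
  rw [Nat.floor_natCast]
  have h1 : ∑ m ∈ Icc 1 n, ArithmeticFunction.vonMangoldt m ≤ ∑ m ∈ Icc 1 n, Real.log n := by
    apply sum_le_sum
    intro m hm
    rw [mem_Icc] at hm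
    refine ArithmeticFunction.vonMangoldt_le_log.trans ?_
    exact Real.log_le_log (by exact_mod_cast hm.1) (by exact_mod_cast hm.2)
  refine h1.trans ?_
  rw [sum_const, nsmul_eq_mul, Nat.card_Icc]
  simp

lemma psiAP_nonneg (n q a : ℕ) : 0 ≤ psiAP n q a :=
  sum_nonneg fun _ _ => ArithmeticFunction.vonMangoldt_nonneg

lemma psi1_nonneg (n : ℕ) : 0 ≤ psi1 n :=
  sum_nonneg fun _ _ => ArithmeticFunction.vonMangoldt_nonneg

noncomputable def TT (n D : ℕ) (L : ℕ → Finset ℕ) : ℝ :=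
  ∑ q ∈ Icc 1 D, ∑ a ∈ L q, |Eψ n q a|

lemma TT_trivial {A : ℝ} (hA : 1 ≤ A) {L : ℕ → Finset ℕ} (hL : Fam A L) (n D : ℕ) (P : ℝ)
    (hP : ∑ q ∈ Icc 1 D, 1 / (Nat.totient q : ℝ) ≤ P)
    (hH : ∑ q ∈ Icc 1 D, 1 / (q : ℝ) ≤ P) :
    TT n D L ≤ A * (2 * (n * Real.log n * P) + D * Real.log n) := by
  have hln := Real.log_natCast_nonneg n
  have h1 : ∀ q ∈ Icc 1 D, ∑ a ∈ L q, |Eψ n q a| ≤
      A * ((n / q + 1) * Real.log n + n * Real.log n * (1 / (Nat.totient q : ℝ))) := by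
    intro q hq
    rw [mem_Icc] at hq
    have h2 : ∀ a ∈ L q, |Eψ n q a| ≤
        (n / q + 1) * Real.log n + n * Real.log n * (1 / (Nat.totient q : ℝ)) := by
      intro a _
      unfold Eψ
      have h3 := psiAP_le n q a hq.1
      have h4 := psi1_le n
      have h5 := psiAP_nonneg n q a
      have h6 : 0 ≤ psi1 n / (Nat.totient q : ℝ) := div_nonneg (psi1_nonneg n) (Nat.cast_nonneg _)
      have h7 : psi1 n / (Nat.totient q : ℝ) ≤ n * Real.log n * (1 / (Nat.totient q : ℝ)) := by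
        rw [mul_one_div]
        exact div_le_div_of_nonneg_right h4 (Nat.cast_nonneg _)
      rw [abs_le]
      constructor <;> linarith
    refine (sum_le_sum h2).trans ?_
    rw [sum_const, nsmul_eq_mul]
    exact mul_le_mul_of_nonneg_right (hL.card q) (by positivity)
  unfold TT
  refine (sum_le_sum h1).trans ?_
  rw [← mul_sum]
  apply mul_le_mul_of_nonneg_left _ (by linarith)
  rw [sum_add_distrib, ← sum_mul, ← mul_sum, sum_add_distrib]
  have h8 : ∑ q ∈ Icc 1 D, (n : ℝ) / q = n * ∑ q ∈ Icc 1 D, 1 / (q : ℝ) := by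
    rw [mul_sum]; exact sum_congr rfl fun q _ => by ring
  rw [h8, sum_const, Nat.card_Icc, nsmul_eq_mul, mul_one, Nat.add_sub_cancel]
  have h9 : (n : ℝ) * Real.log n * ∑ q ∈ Icc 1 D, 1 / (Nat.totient q : ℝ) ≤ n * Real.log n * P :=
    mul_le_mul_of_nonneg_left hP (by positivity)
  have h10 : (n : ℝ) * (∑ q ∈ Icc 1 D, 1 / (q : ℝ)) * Real.log n ≤ n * Real.log n * P := by
    have := mul_le_mul_of_nonneg_left hH (by positivity : 0 ≤ (n : ℝ) * Real.log n)
    linarith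
  linarith

lemma main_sum {A : ℝ} {L : ℕ → Finset ℕ} (hL : Fam A L) (x D : ℕ) (hx : 2 ≤ x) (M : ℝ)
    (hM : ∀ n, 2 ≤ n → n ≤ x → TT n D L ≤ M) :
    ∑ q ∈ Icc 1 D, ∑ a ∈ L q, |piAP x q a - pi1 x / (Nat.totient q : ℝ)| ≤
      2 * M + 6 * (D * (√(x : ℝ) * Real.log x)) := by
  have hx2 : (2 : ℝ) ≤ x := by exact_mod_cast hx
  have hl : 0 < Real.log x := Real.log_pos (by linarith)
  have h1 : ∑ q ∈ Icc 1 D, ∑ a ∈ L q, |piAP x q a - pi1 x / (Nat.totient q : ℝ)| ≤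
      ∑ q ∈ Icc 1 D, ∑ a ∈ L q, (|Eψ x q a| / Real.log x + ∑ n ∈ Ico 2 x, wA n * |Eψ n q a| +
      (NPa x q a + NP x / (Nat.totient q : ℝ))) :=
    sum_le_sum fun q _ => sum_le_sum fun a _ => pi_err x q a hx
  refine h1.trans ?_
  have h2 : ∀ q ∈ Icc 1 D, ∑ a ∈ L q, (NPa x q a + NP x / (Nat.totient q : ℝ)) ≤ 2 * NP x := by
    intro q hq
    rw [mem_Icc] at hq
    rw [sum_add_distrib, sum_const, nsmul_eq_mul]
    have h3 := sum_NPa hL x q
    have hφ : (0 : ℝ) < Nat.totient q := by exact_mod_cast Nat.totient_pos.mpr (by omega)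
    have h4 : ((L q).card : ℝ) * (NP x / (Nat.totient q : ℝ)) ≤ NP x := by
      rw [mul_div_assoc', div_le_iff₀ hφ, mul_comm]
      exact mul_le_mul_of_nonneg_left (by exact_mod_cast card_L_le hL q) (NP_nonneg x)
    linarith
  have h5 : ∑ q ∈ Icc 1 D, ∑ a ∈ L q, (|Eψ x q a| / Real.log x +
      ∑ n ∈ Ico 2 x, wA n * |Eψ n q a| + (NPa x q a + NP x / (Nat.totient q : ℝ))) =
      TT x D L / Real.log x + ∑ n ∈ Ico 2 x, wA n * TT n D L +
      ∑ q ∈ Icc 1 D, ∑ a ∈ L q, (NPa x q a + NP x / (Nat.totient q : ℝ)) := by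
    simp only [TT, sum_add_distrib, sum_div, mul_sum]
    congr 2
    rw [sum_comm]
    apply sum_congr rfl
    intro q _
    rw [sum_comm]
  rw [h5]
  have hM0 : 0 ≤ M := le_trans (sum_nonneg fun _ _ => sum_nonneg fun _ _ => abs_nonneg _)
    (hM x hx le_rfl)
  have h6 : TT x D L / Real.log x ≤ M / Real.log x :=
    div_le_div_of_nonneg_right (hM x hx le_rfl) hl.le
  have h7 : ∑ n ∈ Ico 2 x, wA n * TT n D L ≤ ∑ n ∈ Ico 2 x, wA n * M := by
    apply sum_le_sum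
    intro n hn
    rw [mem_Ico] at hn
    exact mul_le_mul_of_nonneg_left (hM n hn.1 hn.2.le) (wA_nonneg hn.1)
  rw [← sum_mul, sum_wA x hx] at h7
  have h8 : ∑ q ∈ Icc 1 D, ∑ a ∈ L q, (NPa x q a + NP x / (Nat.totient q : ℝ)) ≤
      D * (2 * NP x) := by
    refine (sum_le_sum h2).trans ?_
    rw [sum_const, Nat.card_Icc, nsmul_eq_mul, Nat.add_sub_cancel]
  have h9 : (D : ℝ) * (2 * NP x) ≤ D * (2 * (3 * (√(x : ℝ) * Real.log x))) :=
    mul_le_mul_of_nonneg_left (by linarith [NP_le x (by omega)]) (Nat.cast_nonneg D)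
  have h10 : M / Real.log x + (1 / Real.log 2 - 1 / Real.log x) * M ≤ 2 * M := by
    have h11 : 1 / Real.log 2 ≤ 2 := by
      rw [div_le_iff₀ (Real.log_pos (by norm_num))]
      linarith [Real.log_two_gt_d9]
    have h12 : M / Real.log x + (1 / Real.log 2 - 1 / Real.log x) * M = 1 / Real.log 2 * M := by
      ring
    rw [h12]
    exact mul_le_mul_of_nonneg_right h11 hM0
  linarith

/-- the hypothesis: the theorem for `ψ` -/
def Unsm (U B : ℕ) (X0 : ℝ) : Prop := ∀ X : ℝ, X0 ≤ X → ∀ A : ℝ, 1 ≤ A → ∀ D : ℕ,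
    (D : ℝ) ≤ X / Real.log X ^ B → (D : ℝ) ^ 2 ≤ A * X / Real.log X ^ B →
    ∀ L : ℕ → Finset ℕ, Fam A L →
    ∑ q ∈ Icc 1 D, ∑ a ∈ L q, |psiAP X q a - psi1 X / (Nat.totient q : ℝ)| ≤
      A * X / Real.log X ^ U

theorem primes_of (U : ℕ) (hU : ∃ (B : ℕ) (X0 : ℝ), Unsm (U + 2) B X0) :
    ∃ (B x0 : ℕ), ∀ x : ℕ, x0 ≤ x → ∀ A : ℝ, 1 ≤ A → ∀ D : ℕ,
    (D : ℝ) ≤ x / Real.log x ^ B → (D : ℝ) ^ 2 ≤ A * x / Real.log x ^ B →
    ∀ L : ℕ → Finset ℕ, Fam A L →
    ∑ q ∈ Icc 1 D, ∑ a ∈ L q, |piAP x q a - pi1 x / (Nat.totient q : ℝ)| ≤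
      A * x / Real.log x ^ U := by
  obtain ⟨B1, X0, hun⟩ := hU
  obtain ⟨k, hk⟩ := sum_pow_omega_div_totient 1 le_rfl
  obtain ⟨c0, hc0⟩ : ∃ c : ℕ, c = 2 ^ k := ⟨_, rfl⟩
  have hc01 : 1 ≤ c0 := by rw [hc0]; exact Nat.one_le_two_pow
  obtain ⟨K, hK⟩ : ∃ K : ℕ, K = U + 3 + c0 := ⟨_, rfl⟩
  obtain ⟨B, hB⟩ : ∃ B : ℕ, B = B1 + K + 2 * U + 20 := ⟨_, rfl⟩
  -- eventual conditions
  have hev1 := ev_log 1 K (1 / 2) (by norm_num)
  have hev2 : ∀ᶠ X : ℝ in Filter.atTop, X0 ≤ √X :=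
    Real.tendsto_sqrt_atTop.eventually (Filter.eventually_ge_atTop X0)
  have hev3 : ∀ᶠ X : ℝ in Filter.atTop, (2 : ℝ) ^ (c0 + 1) + 2 ^ (U + 2) + 24 ≤ Real.log X :=
    Real.tendsto_log_atTop.eventually (Filter.eventually_ge_atTop _)
  have hev4 : ∀ᶠ X : ℝ in Filter.atTop, (4 : ℝ) ≤ X := Filter.eventually_ge_atTop _
  obtain ⟨Y, hY⟩ := Filter.eventually_atTop.mp (hev1.and (hev2.and (hev3.and hev4)))
  refine ⟨B, ⌈Y⌉₊, ?_⟩
  intro x hx A hA D hD1 hD2 L hL
  obtain ⟨g1, g2, g3, g4⟩ := hY x (Nat.ceil_le.mp hx)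
  obtain ⟨ℓ, hℓ⟩ : ∃ ℓ : ℝ, ℓ = Real.log x := ⟨_, rfl⟩
  rw [← hℓ] at g1 g3 hD1 hD2 ⊢
  have hx0 : (0 : ℝ) < x := by linarith
  have hp1 : (0 : ℝ) < 2 ^ (c0 + 1) := by positivity
  have hp2 : (0 : ℝ) < 2 ^ (U + 2) := by positivity
  have hℓ24 : 24 ≤ ℓ := by linarith
  have hℓ0 : 0 < ℓ := by linarith
  have hℓ1 : 1 ≤ ℓ := by linarith
  have hx2 : 2 ≤ x := by
    have : (2 : ℝ) ≤ x := by linarith
    exact_mod_cast this
  have hA0 : 0 < A := by linarith
  have hD0 : (0 : ℝ) ≤ D := Nat.cast_nonneg D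
  have hsx : √(x : ℝ) * √(x : ℝ) = x := Real.mul_self_sqrt hx0.le
  have hsx0 : 0 < √(x : ℝ) := Real.sqrt_pos.mpr hx0
  have hℓK : 0 < ℓ ^ K := by positivity
  have hxK : √(x : ℝ) ≤ x / ℓ ^ K := by
    rw [le_div_iff₀ hℓK]
    rw [one_mul, ← Real.sqrt_eq_rpow] at g1
    calc √(x : ℝ) * ℓ ^ K ≤ √(x : ℝ) * √(x : ℝ) := mul_le_mul_of_nonneg_left g1 hsx0.le
      _ = x := hsx
  -- the bound for all `n`
  have hM : ∀ n, 2 ≤ n → n ≤ x → TT n D L ≤ A * x / ℓ ^ (U + 1) := by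
    intro n hn2 hnx
    have hn0 : (0 : ℝ) < n := by exact_mod_cast (by omega : 0 < n)
    have hn1 : (1 : ℝ) < n := by exact_mod_cast (by omega : 1 < n)
    have hnx' : (n : ℝ) ≤ x := by exact_mod_cast hnx
    have hlnℓ : Real.log n ≤ ℓ := by rw [hℓ]; exact Real.log_le_log hn0 hnx'
    have hln0 : 0 < Real.log n := Real.log_pos hn1
    rcases le_or_gt ((x : ℝ) / ℓ ^ K) n with hcase | hcase
    · -- large n
      have hnsq : √(x : ℝ) ≤ n := hxK.trans hcase
      have e1 : (x : ℝ) / ℓ ^ B ≤ n / Real.log n ^ B1 := by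
        have e2 : (x : ℝ) / ℓ ^ B ≤ x / ℓ ^ (K + B1) := by
          apply div_le_div_of_nonneg_left hx0.le (by positivity)
          exact pow_le_pow_right₀ hℓ1 (by omega)
        have e3 : (x : ℝ) / ℓ ^ (K + B1) = x / ℓ ^ K / ℓ ^ B1 := by
          rw [pow_add, div_div]
        have e4 : (x : ℝ) / ℓ ^ K / ℓ ^ B1 ≤ n / ℓ ^ B1 :=
          div_le_div_of_nonneg_right hcase (by positivity)
        have e5 : (n : ℝ) / ℓ ^ B1 ≤ n / Real.log n ^ B1 := by
          apply div_le_div_of_nonneg_left hn0.le (by positivity)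
          exact pow_le_pow_left₀ hln0.le hlnℓ _
        linarith
      have h1 := hun n (g2.trans hnsq) A hA D (hD1.trans e1) (by
        refine hD2.trans ?_
        rw [mul_div_assoc, mul_div_assoc]
        exact mul_le_mul_of_nonneg_left e1 hA0.le) L hL
      have h2 : TT n D L ≤ A * n / Real.log n ^ (U + 2) := h1
      refine h2.trans ?_
      rw [mul_div_assoc, mul_div_assoc]
      apply mul_le_mul_of_nonneg_left _ hA0.le
      have h3 : ℓ / 2 ≤ Real.log n := by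
        have := Real.log_le_log hsx0 hnsq
        rwa [Real.log_sqrt hx0.le, ← hℓ] at this
      calc (n : ℝ) / Real.log n ^ (U + 2) ≤ x / (ℓ / 2) ^ (U + 2) := by
            apply div_le_div₀ hx0.le hnx' (by positivity)
            exact pow_le_pow_left₀ (by positivity) h3 _
        _ = x / ℓ ^ (U + 1) * (2 ^ (U + 2) / ℓ) := by
            rw [div_pow, pow_succ ℓ (U + 1)]; field_simp
        _ ≤ x / ℓ ^ (U + 1) * 1 := by
            apply mul_le_mul_of_nonneg_left _ (by positivity)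
            rw [div_le_one hℓ0]; linarith
        _ = _ := mul_one _
    · -- small n
      have hDx : (D : ℝ) ≤ x := hD1.trans (div_le_self hx0.le (one_le_pow₀ hℓ1))
      have hlogD : Real.log D ≤ ℓ := by
        rcases Nat.eq_zero_or_pos D with h | h
        · rw [h]; simp; exact hℓ0.le
        · rw [hℓ]; exact Real.log_le_log (by exact_mod_cast h) hDx
      have hlogD0 : 0 ≤ Real.log D := Real.log_natCast_nonneg D
      have hP : (1 + Real.log D) ≤ 2 * ℓ := by linarith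
      have hP1 : ∑ q ∈ Icc 1 D, 1 / (Nat.totient q : ℝ) ≤ (2 * ℓ) ^ c0 := by
        have := hk D
        simp only [one_pow] at this
        refine this.trans ?_
        rw [← hc0]
        exact pow_le_pow_left₀ (by linarith) hP _
      have hP2 : ∑ q ∈ Icc 1 D, 1 / (q : ℝ) ≤ (2 * ℓ) ^ c0 := by
        refine (harm_le' D).trans (hP.trans ?_)
        calc 2 * ℓ = (2 * ℓ) ^ 1 := (pow_one _).symm
          _ ≤ (2 * ℓ) ^ c0 := pow_le_pow_right₀ (by linarith) hc01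
      have h1 := TT_trivial hA hL n D _ hP1 hP2
      refine h1.trans ?_
      rw [mul_div_assoc]
      apply mul_le_mul_of_nonneg_left _ hA0.le
      have h2 : (n : ℝ) * Real.log n * (2 * ℓ) ^ c0 ≤ x / ℓ ^ K * ℓ * (2 * ℓ) ^ c0 := by
        apply mul_le_mul_of_nonneg_right _ (by positivity)
        exact mul_le_mul hcase.le hlnℓ hln0.le (by positivity)
      have h3 : (x : ℝ) / ℓ ^ K * ℓ * (2 * ℓ) ^ c0 = 2 ^ c0 * (x / ℓ ^ (U + 2)) := by
        rw [hK, mul_pow, show U + 3 + c0 = (U + 2) + 1 + c0 by ring, pow_add ℓ (U + 2 + 1) c0,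
          pow_succ ℓ (U + 2)]
        field_simp
      have h4 : (D : ℝ) * Real.log n ≤ x / ℓ ^ (U + 2) := by
        have e1 : (D : ℝ) * Real.log n ≤ x / ℓ ^ B * ℓ := mul_le_mul hD1 hlnℓ hln0.le (by positivity)
        have e2 : (x : ℝ) / ℓ ^ B * ℓ ≤ x / ℓ ^ (U + 3) * ℓ := by
          apply mul_le_mul_of_nonneg_right _ hℓ0.le
          apply div_le_div_of_nonneg_left hx0.le (by positivity)
          exact pow_le_pow_right₀ hℓ1 (by omega)
        have e3 : (x : ℝ) / ℓ ^ (U + 3) * ℓ = x / ℓ ^ (U + 2) := by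
          rw [show U + 3 = U + 2 + 1 by ring, pow_succ ℓ (U + 2)]; field_simp
        linarith
      have h5 : (x : ℝ) / ℓ ^ (U + 2) * (2 ^ (c0 + 1) + 1) ≤ x / ℓ ^ (U + 1) := by
        have e1 : (x : ℝ) / ℓ ^ (U + 1) = x / ℓ ^ (U + 2) * ℓ := by
          rw [show U + 2 = U + 1 + 1 by ring, pow_succ ℓ (U + 1)]; field_simp
        rw [e1]
        apply mul_le_mul_of_nonneg_left _ (by positivity)
        linarith
      rw [h3] at h2
      have h6 : (x : ℝ) / ℓ ^ (U + 2) * (2 ^ (c0 + 1) + 1) =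
          2 * (2 ^ c0 * (x / ℓ ^ (U + 2))) + x / ℓ ^ (U + 2) := by rw [pow_succ]; ring
      linarith
  have h1 := main_sum hL x D hx2 _ hM
  refine h1.trans ?_
  rw [← hℓ]
  -- the prime powers
  have h2 : (D : ℝ) ≤ A * (√(x : ℝ) / ℓ ^ (U + 3)) := by
    apply (pow_le_pow_iff_left₀ hD0 (by positivity) two_ne_zero).mp
    have e1 : (D : ℝ) ^ 2 ≤ A * x / ℓ ^ (2 * (U + 3)) := by
      refine hD2.trans ?_
      apply div_le_div_of_nonneg_left (by positivity) (by positivity)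
      exact pow_le_pow_right₀ hℓ1 (by omega)
    have e2 : (A * (√(x : ℝ) / ℓ ^ (U + 3))) ^ 2 = A ^ 2 * x / ℓ ^ (2 * (U + 3)) := by
      rw [mul_pow, div_pow, Real.sq_sqrt hx0.le, ← pow_mul, mul_comm (U + 3) 2]; ring
    rw [e2]
    refine e1.trans ?_
    apply div_le_div_of_nonneg_right _ (by positivity)
    apply mul_le_mul_of_nonneg_right _ hx0.le
    rw [sq]; exact le_mul_of_one_le_left hA0.le hA
  have h3 : (D : ℝ) * (√(x : ℝ) * ℓ) ≤ A * (x / ℓ ^ (U + 2)) := by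
    have e1 := mul_le_mul_of_nonneg_right h2 (by positivity : 0 ≤ √(x : ℝ) * ℓ)
    have e2 : A * (√(x : ℝ) / ℓ ^ (U + 3)) * (√(x : ℝ) * ℓ) = A * (x / ℓ ^ (U + 2)) := by
      rw [show U + 3 = U + 2 + 1 by ring, pow_succ ℓ (U + 2)]
      field_simp
      rw [Real.sq_sqrt hx0.le]
    linarith
  obtain ⟨Z, hZ⟩ : ∃ Z : ℝ, Z = A * (x / ℓ ^ (U + 2)) := ⟨_, rfl⟩
  have hZ0 : 0 ≤ Z := by rw [hZ]; positivity
  have h4 : A * (x : ℝ) / ℓ ^ (U + 1) = Z * ℓ := by
    rw [hZ, show U + 2 = U + 1 + 1 by ring, pow_succ ℓ (U + 1)]; field_simp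
  have h5 : A * (x : ℝ) / ℓ ^ U = Z * ℓ * ℓ := by
    rw [hZ, show U + 2 = U + 1 + 1 by ring, pow_succ ℓ (U + 1), pow_succ ℓ U]; field_simp
  rw [h4, h5]
  rw [← hZ] at h3
  have h6 : 24 * Z ≤ Z * ℓ := by
    have := mul_le_mul_of_nonneg_left hℓ24 hZ0
    linarith
  have h7 : 24 * (Z * ℓ) ≤ Z * ℓ * ℓ := by
    have := mul_le_mul_of_nonneg_left hℓ24 (by positivity : 0 ≤ Z * ℓ)
    linarith
  linarith

end H343E
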