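import Pool.Agent.H68.L.R_seed8.H343R2.EH.Smoothed
import Pool.Agent.H68.L.R_seed8.H343R2.EH.Unsmooth

open Finset

namespace H343E

theorem unsmoothed (U : ℕ) : ∃ (B : ℕ) (X0 : ℝ), ∀ X : ℝ, X0 ≤ X → ∀ A : ℝ, 1 ≤ A → ∀ D : ℕ,
    (D : ℝ) ≤ X / Real.log X ^ B → (D : ℝ) ^ 2 ≤ A * X / Real.log X ^ B →
    ∀ L : ℕ → Finset ℕ, Fam A L →
    ∑ q ∈ Icc 1 D, ∑ a ∈ L q, |psiAP X q a - psi1 X / (Nat.totient q : ℝ)| ≤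
      A * X / Real.log X ^ U := unsmoothed_of smoothed U

end H343E
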